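import Pool.Agent.Helper23.CE.Main

/-!
# Increment inequality away from the ties, without the existence of the constants
-/

set_option autoImplicit false

namespace Pool.Agent.Helper53.CE

open Pool.Agent.Helper53.TG Pool.Agent.Helper23.CE

/-- the inequality between the conjectured rates which gives the increment inequality -/
theorem rate_off {d k : ℕ} (hk : 1 ≤ k)
    (hoff : ∀ m : ℤ, 160 * (((k : ℝ) - 1) / ((d : ℝ) + 1) + 2) ^ 3 * err d ≤
      |2 * ((k : ℝ) - 1) / ((d : ℝ) + 1) - m|) :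
    rate d k + 2 ≤ (1 - 20 * err d) * rate d (k + (d + 1)) := by
  obtain ⟨K, rfl⟩ : ∃ K, k = K + 1 := ⟨k - 1, by omega⟩
  obtain ⟨x, hx, hx0, hx1, hs, hr⟩ := rate_slack (d := d) (K := K)
  have hJ1 : (1 : ℝ) ≤ ind d (K + 1) := by exact_mod_cast ind_pos
  have hη0 : 0 ≤ err d := by unfold err; positivity
  set J : ℝ := (ind d (K + 1) : ℝ) with hJd
  set η := err d with hη
  set κ : ℝ := (K : ℝ) / ((d : ℝ) + 1) with hκ
  have hκ0 : 0 ≤ κ := by positivity
  have e1 : (((K + 1 : ℕ) : ℝ) - 1) / ((d : ℝ) + 1) = κ := by push_cast; rw [hκ]; ring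
  have e2 : 2 * (((K + 1 : ℕ) : ℝ) - 1) / ((d : ℝ) + 1) = 2 * κ := by
    push_cast; rw [hκ]; ring
  have hxk : x = 2 * κ + 1 - J := by rw [hx, hκ]; ring
  have hδ : 160 * (κ + 2) ^ 3 * η ≤ 2 * (x * (1 - x)) := by
    have ha := hoff ((ind d (K + 1) : ℤ) - 1)
    have hb := hoff (ind d (K + 1) : ℤ)
    rw [e1, e2] at ha hb
    push_cast at ha hb
    rw [← hJd] at ha hb
    have ea : 2 * κ - (J - 1) = x := by rw [hxk]; ring
    have eb : 2 * κ - J = -(1 - x) := by rw [hxk]; ring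
    rw [ea, abs_of_nonneg hx0] at ha
    rw [eb, abs_neg, abs_of_nonneg (by linarith)] at hb
    have hp : 0 ≤ 160 * (κ + 2) ^ 3 * η := by positivity
    rcases le_total x (1 / 2) with h | h
    · nlinarith
    · nlinarith
  have hJκ : J ≤ 2 * κ + 1 := by linarith
  have key : 20 * η * rate d (K + 1 + (d + 1)) ≤
      rate d (K + 1 + (d + 1)) - rate d (K + 1) - 2 := by
    rw [hs, hr]
    have p1 : 0 < J + 1 - x := by linarith
    have p2 : 0 < J + 3 - x := by linarith
    rw [mul_div_assoc', div_le_div_iff₀ p2 (mul_pos p1 p2)]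
    have h3 : (J + 1) * ((J + 2) * (J + 3)) ≤ 8 * (κ + 2) ^ 3 := by
      have a1 : J + 1 ≤ 2 * (κ + 2) := by linarith
      have a2 : J + 2 ≤ 2 * (κ + 2) := by linarith
      have a3 : J + 3 ≤ 2 * (κ + 2) := by linarith
      calc (J + 1) * ((J + 2) * (J + 3)) ≤ (2 * (κ + 2)) * ((2 * (κ + 2)) * (2 * (κ + 2))) := by
            apply mul_le_mul a1 _ (by positivity) (by positivity)
            exact mul_le_mul a2 a3 (by positivity) (by positivity)
        _ = 8 * (κ + 2) ^ 3 := by ring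
    have h4 : 20 * η * ((J + 2) * (J + 3)) * (J + 1 - x) ≤ 2 * x * (1 - x) := by
      have h5 : 20 * η * ((J + 2) * (J + 3)) * (J + 1 - x) ≤
          20 * η * ((J + 1) * ((J + 2) * (J + 3))) := by
        have : 0 ≤ 20 * η * ((J + 2) * (J + 3)) * x := by positivity
        linarith
      have h6 : 20 * η * ((J + 1) * ((J + 2) * (J + 3))) ≤ 20 * η * (8 * (κ + 2) ^ 3) :=
        mul_le_mul_of_nonneg_left h3 (by positivity)
      linarith
    calc 20 * η * ((J + 2) * (J + 3)) * ((J + 1 - x) * (J + 3 - x)) =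
        (20 * η * ((J + 2) * (J + 3)) * (J + 1 - x)) * (J + 3 - x) := by ring
      _ ≤ (2 * x * (1 - x)) * (J + 3 - x) := mul_le_mul_of_nonneg_right h4 p2.le
  linarith

/-- The increment inequality for every `n`, without the existence of the constants:
`f(n,d,k+(d+1)) ≥ f(n,d,k) + 2n - (d+1) J`. -/
theorem inc_fin {d k : ℕ} (hd : 1 ≤ d) (hk : 1 ≤ k)
    (hoff : ∀ m : ℤ, 160 * (((k : ℝ) - 1) / ((d : ℝ) + 1) + 2) ^ 3 * err d ≤
      |2 * ((k : ℝ) - 1) / ((d : ℝ) + 1) - m|) (n : ℕ) (hn : 1 ≤ n) :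
    (f n d k : ℝ) + 2 * n ≤ (f n d (k + (d + 1)) : ℝ) + ((d : ℝ) + 1) * ind d k := by
  have h1 := rate_off hk hoff
  have h2 := upper' hd hk hn
  have h3 := lower (k := k + (d + 1)) hd (by omega) hn
  have hn0 : (0 : ℝ) ≤ n := Nat.cast_nonneg n
  have h4 : (rate d k + 2) * n ≤ (1 - 20 * err d) * rate d (k + (d + 1)) * n :=
    mul_le_mul_of_nonneg_right h1 hn0
  nlinarith

end Pool.Agent.Helper53.CE
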